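import Pool.Agent.Y34.HB.Dir
import Pool.Agent.Y73.HB.Par
import Pool.Agent.Y155.HB.Slab
import Pool.Agent.Y929.HB.Thick
import Pool.Agent.Y51.HB.K2
import Pool.Agent.Y51.HB.Rot2
import Pool.Agent.Y51.HB.Comm
import Pool.Agent.Y872.HB.Asy
import Pool.Agent.Y779.HB.Deep
import Pool.Agent.Y487.HB.K1

/-!
# The branching directions of flat planes in CAT(0) groups without `ℤ²`

Let `G` act geometrically on a proper CAT(0) space `X` without flats of dimension three and let
`f` be a flat plane of `X`.  The limit flats of `f` are the pointwise limits of the parametrised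
planes `z ↦ g • f (b + z)`, `g ∈ G`, `b ∈ E 2`.  Two of them branch in the direction `a` (a unit
vector) if the distance of the point `f₁ z` from the flat `f₂` is `φ ⟪a, z⟫` for a convex
nonincreasing function `φ` with `φ t → ∞` for `t → -∞`: the flats stay at bounded distance along
the half-plane `⟪a, z⟫ ≥ 0` and diverge on the other side.

Theorem: if `G` has no subgroup `ℤ²` then the branching directions of the limit flats of `f` are
not contained in an open half-circle: for every unit vector `u` there is a branching direction `a`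
with `⟪a, u⟫ ≤ 0`.  In particular there are at least two branching directions; and if all of them
lie on one line or two lines through the origin (as for flats which branch only along walls of one
or two directions) then two of them are opposite.

Idea of the proof.  If there is no branching direction `a` with `⟪a, u⟫ ≤ 0` then, by compactness
and convexity, two limit flats which are close on a large ball are close on a cone around `u`, and
there they differ by a linear isometry close to the identity.  Recurrence of `f` along the ray in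
the direction `u` gives elements of `G` which move `f` along itself on such a cone; the rotation
parts are killed by a commutator of a fixed element of this kind with a very long one, whose
translation part is large.  Deep inside the cone one finds a limit flat which is translated by an
element of `G`; the absence of flats of dimension three makes this translation exact up to a
bounded error, and this gives `ℤ²`.
-/

set_option autoImplicit false

namespace Pool.Agent.Results.MP_140312_al.BranchingDirections

open Set Metric Filter

/-- Euclidean space of dimension `k`. -/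
abbrev E (k : ℕ) : Type := EuclideanSpace ℝ (Fin k)

/-- The inequality of Bruhat and Tits: a complete metric space is CAT(0) if and only if any two
points `p`, `q` have a midpoint `m` such that
`d(x, m)² ≤ (d(x, p)² + d(x, q)²) / 2 - d(p, q)² / 4` for all `x`. -/
def BruhatTits (X : Type*) [MetricSpace X] : Prop := ∀ p q : X, ∃ m : X, ∀ x : X,
  dist x m ^ 2 ≤ (dist x p ^ 2 + dist x q ^ 2) / 2 - dist p q ^ 2 / 4

/-- The parametrised limit planes of the plane `f`: the closure, for pointwise convergence, of the
set of the planes `z ↦ g • f (b + z)`. -/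
def LimitFlats (G : Type*) {X : Type*} [Group G] [MetricSpace X] [MulAction G X]
    (f : E 2 → X) : Set (E 2 → X) :=
  closure {h : E 2 → X | ∃ (g : G) (b : E 2), h = fun z => g • f (b + z)}

/-- The planes `f₁`, `f₂` branch in the direction `a`: the distance of the point `f₁ z` from the
plane `f₂` depends only on `t = ⟪a, z⟫`, it is a convex and nonincreasing (so bounded for `t ≥ 0`)
function of `t` and tends to infinity for `t → -∞`. -/
def Branch {X : Type*} [MetricSpace X] (a : E 2) (f₁ f₂ : E 2 → X) : Prop :=
  ∃ φ : ℝ → ℝ, ConvexOn ℝ univ φ ∧ Antitone φ ∧ Tendsto φ atBot atTop ∧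
    ∀ z, infDist (f₁ z) (range f₂) = φ (inner ℝ a z)

/-- Let `G` act geometrically (by isometries, properly discontinuously, cocompactly) on a proper
CAT(0) space `X` without flats of dimension three, and suppose that `G` has no subgroup `ℤ²`. Then
for every flat plane `f` of `X` and every unit vector `u` two limit planes of `f` branch in a
direction `a` with `⟪a, u⟫ ≤ 0`. -/
theorem result {X : Type*} [MetricSpace X] [ProperSpace X] (hX : BruhatTits X)
    {G : Type*} [Group G] [MulAction G X] [IsIsometricSMul G X] [ProperlyDiscontinuousSMul G X]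
    (hcc : ∃ K : Set X, IsCompact K ∧ ∀ x : X, ∃ g : G, g • x ∈ K)
    (h3 : ∀ f : E 3 → X, ¬ Isometry f)
    (hZ : ¬ ∃ φ : Multiplicative (ℤ × ℤ) →* G, Function.Injective φ)
    (f : E 2 → X) (hf : Isometry f) (u : E 2) (hu : ‖u‖ = 1) :
    ∃ a : E 2, ‖a‖ = 1 ∧ inner ℝ a u ≤ 0 ∧
      ∃ f₁ ∈ LimitFlats G f, ∃ f₂ ∈ LimitFlats G f, Isometry f₁ ∧ Isometry f₂ ∧
        Branch a f₁ f₂ := by
  have hG : Pool.Agent.Y34.HB.Geo X G := ⟨inferInstance, inferInstance, inferInstance, hcc, hX⟩
  have hpar := Pool.Agent.Y73.HB.t Pool.Agent.Y34.HB.t_conv Pool.Agent.Y34.HB.t_const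
  obtain ⟨M0, hM0⟩ := Pool.Agent.Y929.HB.Thick.t
    (Pool.Agent.Y155.HB.t2 Pool.Agent.Y155.HB.t1) Pool.Agent.Y34.HB.t_lim X G hG 2 h3
  -- the invariant family
  have hLi : ∀ h ∈ LimitFlats G f, Isometry h := by
    have hc : IsClosed {h : E 2 → X | ∀ z w, dist (h z) (h w) = dist z w} := by
      have : {h : E 2 → X | ∀ z w, dist (h z) (h w) = dist z w} =
          ⋂ z, ⋂ w, {h : E 2 → X | dist (h z) (h w) = dist z w} := by
        ext h
        simp
      rw [this]
      refine isClosed_iInter fun z => isClosed_iInter fun w => isClosed_eq ?_ continuous_const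
      exact (continuous_apply z).dist (continuous_apply w)
    intro h hh
    refine Isometry.of_dist_eq ?_
    refine closure_minimal ?_ hc hh
    rintro h' ⟨g, b, rfl⟩ z w
    rw [dist_smul, hf.dist_eq, dist_add_left]
  have hL : Pool.Agent.Y34.HB.Fam G (LimitFlats G f) := by
    refine ⟨hLi, isClosed_closure, fun h hh g => ?_, fun h hh a => ?_⟩
    · refine map_mem_closure (f := fun (h : E 2 → X) (z : E 2) => g • h z) ?_ hh ?_
      · exact continuous_pi fun z => (continuous_apply z).const_smul g
      · rintro h ⟨g', b, rfl⟩
        exact ⟨g * g', b, by simp only [mul_smul]⟩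
    · refine map_mem_closure (f := fun (h : E 2 → X) (z : E 2) => h (a + z)) ?_ hh ?_
      · exact continuous_pi fun z => continuous_apply (a + z)
      · rintro h ⟨g', b, rfl⟩
        exact ⟨g', b + a, by simp only [add_assoc]⟩
  have hfL : f ∈ LimitFlats G f := subset_closure ⟨1, 0, by simp⟩
  have hM0' : ∀ f₁ ∈ LimitFlats G f, ∀ f₂ ∈ LimitFlats G f, Pool.Agent.Y34.HB.Near f₁ f₂ →
      infDist (f₁ 0) (range f₂) ≤ M0 := by
    intro f₁ h1 f₂ h2 hn
    obtain ⟨e, he⟩ := hpar X hX 2 f₁ f₂ (hLi _ h1) (hLi _ h2) hn
    exact hM0 _ _ _ _ (hLi _ h1) (hLi _ h2) e.isometry he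
  by_contra hcon
  apply hZ
  refine Pool.Agent.Y34.HB.dir Pool.Agent.Y487.HB.t Pool.Agent.Y51.HB.t_K2 Pool.Agent.Y872.HB.t
    Pool.Agent.Y51.HB.t1 Pool.Agent.Y51.HB.t2 Pool.Agent.Y51.HB.t_COMM Pool.Agent.Y51.HB.t_REC
    Pool.Agent.Y779.HB.t hG h3 _ hL M0 hM0' u hu ?_ f hfL
  intro f₁ h1 f₂ h2 a ha hau hn
  by_contra hnn
  obtain ⟨φ, h4, h5, h6, h7⟩ := Pool.Agent.Y34.HB.shape hX (hLi _ h1) (hLi _ h2) ha hn hnn
  exact hcon ⟨a, ha, hau, f₁, h1, f₂, h2, hLi _ h1, hLi _ h2, φ, h4, h5, h6, h7⟩

end Pool.Agent.Results.MP_140312_al.BranchingDirections
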