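import Pool.Agent.Y34.HB.Half
import Pool.Agent.Y34.HB.WideT
import Pool.Agent.Y419.HB.Per
import Pool.Agent.Y514.HB.HPC
import Pool.Agent.TH60.FP.Cen
import Pool.Agent.TH60.FP.Sel
import Pool.Agent.TH60.FP.Bnd
import Pool.Agent.TH60.FP.Close
import Pool.Agent.TH60.FP.Strip
import Pool.Agent.TH60.FP.Trans
import Pool.Agent.TH60.FP.Mid
import Pool.Agent.TH60.FP.Dist

/-!
# An axis bounds no flat half-plane or continuum many if there is no `ℤ²`

Let `G` act geometrically on a proper CAT(0) space `X`, let `g` be an element of `G` and `c` an axis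
of `g`.  If the axis `c` bounds at least one flat half-plane but not continuum many, then `G`
contains `ℤ²`.  So if `G` contains no `ℤ²` then every element with an axis has rank one or its axes
which bound a half-plane bound continuum many of them.

Idea of the proof.  The half-planes bounded by `c` form a compact metrisable space on which `g`
acts.  If it is countable then (Baire) the isolated points of the last nonempty
Cantor-Bendixson derivative form a finite set permuted by `g`, so a power of `g` preserves a
half-plane and acts on it as a translation.  A limit of strips of this half-plane further and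
further away from `c` is a flat plane on which a conjugate of this power acts as a translation, and
the closing theorem for such planes gives `ℤ²`.  If the space is uncountable then it contains a copy
of the Cantor set.
-/

set_option autoImplicit false

namespace Pool.Agent.Results.MP_140312_al.CountablyManyHalfPlanes

open Set Metric Filter

/-- The inequality of Bruhat and Tits: a complete metric space is CAT(0) if and only if any two
points `p`, `q` have a midpoint `m` such that
`d(x, m)² ≤ (d(x, p)² + d(x, q)²) / 2 - d(p, q)² / 4` for all `x`. -/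
def BruhatTits (X : Type*) [MetricSpace X] : Prop := ∀ p q : X, ∃ m : X, ∀ x : X,
  dist x m ^ 2 ≤ (dist x p ^ 2 + dist x q ^ 2) / 2 - dist p q ^ 2 / 4

/-- The flat half-planes of `X` bounded by the line `c`: the maps from the Euclidean half-plane
`ℝ × [0, ∞)` to `X` which preserve distances and extend the parametrisation `c` of the boundary
line.  (Different maps have different images.) -/
def HalfPlanes {X : Type*} [MetricSpace X] (c : ℝ → X) : Set (ℝ × NNReal → X) :=
  {H | (∀ p q : ℝ × NNReal, dist (H p) (H q) ^ 2 = (p.1 - q.1) ^ 2 + ((p.2 : ℝ) - q.2) ^ 2) ∧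
    ∀ t : ℝ, H (t, 0) = c t}

/-- Let `G` act geometrically on a proper CAT(0) space `X`, let `g` be an element of `G` and let `c`
be an axis of `g` (a line on which `g` is a translation by `τ > 0`).  Then `G` contains a subgroup
isomorphic to `ℤ²`, or `c` bounds no flat half-plane, or `c` bounds continuum many flat
half-planes. -/
theorem result {X : Type*} [MetricSpace X] [ProperSpace X] (hX : BruhatTits X)
    {G : Type*} [Group G] [MulAction G X] [IsIsometricSMul G X] [ProperlyDiscontinuousSMul G X]
    (hcc : ∃ K : Set X, IsCompact K ∧ ∀ x : X, ∃ g : G, g • x ∈ K)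
    (g : G) (c : ℝ → X) (hc : Isometry c) (τ : ℝ) (hτ : 0 < τ) (hg : ∀ t, g • c t = c (t + τ)) :
    (∃ φ : Multiplicative (ℤ × ℤ) →* G, Function.Injective φ) ∨ HalfPlanes c = ∅ ∨
      ∃ Φ : (ℕ → Bool) → (ℝ × NNReal → X), Function.Injective Φ ∧ ∀ x, Φ x ∈ HalfPlanes c := by
  have hG : Pool.Agent.Y34.HB.Geo X G := ⟨inferInstance, inferInstance, inferInstance, hcc, hX⟩
  have hdd := Pool.Agent.TH60.FP.t_dd Pool.Agent.TH60.FP.t_strip
    (Pool.Agent.TH60.FP.t_trans Pool.Agent.TH60.FP.t_strip)
    (Pool.Agent.TH60.FP.t_mid Pool.Agent.TH60.FP.t_strip)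
  have hcl := Pool.Agent.TH60.FP.t_close hdd Pool.Agent.TH60.FP.t_cen Pool.Agent.TH60.FP.t_sel
    (Pool.Agent.TH60.FP.t_bnd hdd Pool.Agent.TH60.FP.t_cen Pool.Agent.TH60.FP.t_park)
  rcases Pool.Agent.Y34.HB.halfplanes Pool.Agent.Y419.HB.t Pool.Agent.Y514.HB.t hG g τ c
    ⟨hc, hg⟩ with ⟨n, hn, H, hH, hper⟩ | h | h
  · left
    exact Pool.Agent.Y34.HB.of_periodic (Pool.Agent.Y34.HB.WideT.t hcl) hG (g ^ n) (n * τ)
      (by positivity) c H hH hper
  · exact Or.inr (Or.inl h)
  · exact Or.inr (Or.inr h)

end Pool.Agent.Results.MP_140312_al.CountablyManyHalfPlanes
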