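import Pool.Agent.Y34.HB.Closing
import Pool.Agent.Y34.HB.Coc
import Pool.Agent.Y34.HB.Shape
import Pool.Agent.Y73.HB.Par
import Pool.Agent.Y899.HB.Comp
import Pool.Agent.Y155.HB.Slab
import Pool.Agent.Y929.HB.Thick
import Pool.Agent.Y809.HB.Mini
import Pool.Agent.Y220.HB.ROT
import Pool.Agent.Y210.HB.DIM
import Pool.Agent.Y363.HB.KEY

/-!
# Maximal flats of a CAT(0) group branch along half-spaces or close up to `ℤ ^ k`

Let `G` act geometrically on a proper CAT(0) space `X`, let `k` be the maximal dimension of flats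
of `X` and let `f` be a flat of dimension `k`.  Theorem: one of the following holds.

* Branching: there are limit flats `f₁`, `f₂` of `f` (limits of translates of `f`) which stay close
  along a half-space but diverge on the other side: the distance of `f₁ z` from the flat `f₂` is
  `φ ⟪u, z⟫` for a unit vector `u` and a convex nonincreasing function `φ` with `φ t → ∞` for
  `t → -∞`.
* Isolation and closing: for every `M` there is `R` such that two limit flats of `f` which are
  `M`-close along a ball of radius `R` are parallel, every limit flat of `f` is periodic up to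
  bounded distance, and `f` is periodic up to bounded distance under a subgroup `ℤ ^ k` of `G`.

So if `G` contains no `ℤ ^ 2` and `X` contains a flat plane (i.e. `G` is not hyperbolic, by
the flat plane theorem) then the flats of maximal dimension of `X` branch along half-spaces, in
every closed invariant family.

Idea of the proof.  The distance `D z` of `f₁ z` from the flat `f₂` is convex.  If `f₁`, `f₂` are
not parallel but `M`-close along larger and larger balls, recentre `f₁`, `f₂` at a point of minimal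
norm where `D = M + 1`, `M` larger than the distance of parallel flats (which is bounded as there
are no flats of dimension `k + 1`), and take a limit: it branches along a half-space.  Without
branching the flats are isolated and a recurrence argument makes them coarsely periodic; the
stabiliser of the parallelism class acts on the flat as a crystallographic group, Bieberbach's
argument gives translations in all directions, and powers of them commute.
-/

set_option autoImplicit false

namespace Pool.Agent.Results.MP_140312_al.HalfSpaceBranching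

open Set Metric Filter

/-- Euclidean space of dimension `k`. -/
abbrev E (k : ℕ) : Type := EuclideanSpace ℝ (Fin k)

/-- The inequality of Bruhat and Tits: a complete metric space is CAT(0) if and only if any two
points `p`, `q` have a midpoint `m` such that
`d(x, m)² ≤ (d(x, p)² + d(x, q)²) / 2 - d(p, q)² / 4` for all `x`. -/
def BruhatTits (X : Type*) [MetricSpace X] : Prop := ∀ p q : X, ∃ m : X, ∀ x : X,
  dist x m ^ 2 ≤ (dist x p ^ 2 + dist x q ^ 2) / 2 - dist p q ^ 2 / 4

/-- The limit flats of the flat parametrised by `f`: the closure, for pointwise convergence, of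
the set of all isometric embeddings of Euclidean space whose image is a translate `g • F` of the
image `F` of `f`. -/
def LimitFlats (G : Type*) {X : Type*} [Group G] [MetricSpace X] [MulAction G X] {k : ℕ}
    (f : E k → X) : Set (E k → X) :=
  closure {h : E k → X | Isometry h ∧ ∃ g : G, range h = (fun x => g • x) '' range f}

/-- The flats `f₁`, `f₂` branch along a half-space: the distance of the point `f₁ z` from the flat
`f₂` depends only on `t = ⟪u, z⟫`, `u` a unit vector, it is a convex and nonincreasing (so bounded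
for `t ≥ 0`) function of `t` and tends to infinity for `t → -∞`. -/
def Branch {X : Type*} [MetricSpace X] {k : ℕ} (f₁ f₂ : E k → X) : Prop :=
  ∃ (u : E k) (φ : ℝ → ℝ), ‖u‖ = 1 ∧ ConvexOn ℝ univ φ ∧ Antitone φ ∧ Tendsto φ atBot atTop ∧
    ∀ z, infDist (f₁ z) (range f₂) = φ (inner ℝ u z)

/-- The dichotomy for a dimension `k` such that there is no flat of dimension `k + 1`. -/
theorem dichotomy {X : Type*} [MetricSpace X] [ProperSpace X] (hX : BruhatTits X)
    {G : Type*} [Group G] [MulAction G X] [IsIsometricSMul G X] [ProperlyDiscontinuousSMul G X]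
    (hcc : ∃ K : Set X, IsCompact K ∧ ∀ x : X, ∃ g : G, g • x ∈ K) :
    (∃ N : ℕ, ∀ (k : ℕ) (f : E k → X), Isometry f → k ≤ N) ∧
    ∀ k : ℕ, (∀ f : E (k + 1) → X, ¬ Isometry f) → ∀ f : E k → X, Isometry f →
      (∃ f₁ ∈ LimitFlats G f, ∃ f₂ ∈ LimitFlats G f, Isometry f₁ ∧ Isometry f₂ ∧
        Branch f₁ f₂) ∨
      ((∀ M : ℝ, ∃ R : ℝ, ∀ f₁ ∈ LimitFlats G f, ∀ f₂ ∈ LimitFlats G f,
          (∀ z, ‖z‖ ≤ R → infDist (f₁ z) (range f₂) ≤ M) →
          ∃ B : ℝ, ∀ z, infDist (f₁ z) (range f₂) ≤ B) ∧
        (∀ f₁ ∈ LimitFlats G f, ∃ r : ℝ, ∀ z, ∃ g : G, dist (g • f₁ 0) (f₁ z) ≤ r ∧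
          ∀ w, infDist (g • f₁ w) (range f₁) ≤ r) ∧
        ∃ φ : Multiplicative (Fin k → ℤ) →* G, Function.Injective φ ∧
          ∃ (b : Fin k → E k) (r : ℝ), LinearIndependent ℝ b ∧
            ∀ (n : Fin k → ℤ) (z : E k),
              dist (φ (Multiplicative.ofAdd n) • f z) (f (z + ∑ i, n i • b i)) ≤ r) := by
  have hG : Pool.Agent.Y34.HB.Geo X G := ⟨inferInstance, inferInstance, inferInstance, hcc, hX⟩
  refine ⟨Pool.Agent.Y210.HB.t_dim X G hG, fun k hk f hf => ?_⟩
  have hconv := Pool.Agent.Y34.HB.t_conv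
  have hconst := Pool.Agent.Y34.HB.t_const
  have hpar := Pool.Agent.Y73.HB.t hconv hconst
  have hhom := Pool.Agent.Y899.HB.t3 hpar Pool.Agent.Y899.HB.t1 Pool.Agent.Y899.HB.t2
  obtain ⟨M0, hM0⟩ := Pool.Agent.Y929.HB.Thick.t
    (Pool.Agent.Y155.HB.t2 Pool.Agent.Y155.HB.t1) Pool.Agent.Y34.HB.t_lim X G hG k hk
  -- the invariant family
  have hLi : ∀ h ∈ LimitFlats G f, Isometry h := by
    have hc : IsClosed {h : E k → X | ∀ z w, dist (h z) (h w) = dist z w} := by
      have : {h : E k → X | ∀ z w, dist (h z) (h w) = dist z w} =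
          ⋂ z, ⋂ w, {h : E k → X | dist (h z) (h w) = dist z w} := by
        ext h
        simp
      rw [this]
      refine isClosed_iInter fun z => isClosed_iInter fun w => isClosed_eq ?_ continuous_const
      exact (continuous_apply z).dist (continuous_apply w)
    intro h hh
    refine Isometry.of_dist_eq ?_
    exact closure_minimal (fun h' hh' => fun z w => hh'.1.dist_eq z w) hc hh
  have hL : Pool.Agent.Y34.HB.Fam G (LimitFlats G f) := by
    refine ⟨hLi, isClosed_closure, fun h hh g => ?_, fun h hh a => ?_⟩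
    · refine map_mem_closure (f := fun (h : E k → X) (z : E k) => g • h z) ?_ hh ?_
      · exact continuous_pi fun z => (continuous_apply z).const_smul g
      · rintro h ⟨h1, g', h2⟩
        refine ⟨(isometry_smul X g).comp h1, g * g', ?_⟩
        have e1 : range (fun z : E k => g • h z) = (fun x => g • x) '' range h := by
          rw [← range_comp]
          rfl
        rw [e1, h2, image_image]
        simp only [mul_smul]
    · refine map_mem_closure (f := fun (h : E k → X) (z : E k) => h (a + z)) ?_ hh ?_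
      · exact continuous_pi fun z => continuous_apply (a + z)
      · rintro h ⟨h1, g', h2⟩
        refine ⟨h1.comp (isometry_add_left a), g', ?_⟩
        rw [← h2]
        exact (Equiv.addLeft a).surjective.range_comp h
  have hfL : f ∈ LimitFlats G f := subset_closure ⟨hf, 1, by simp⟩
  have hM0' : ∀ f₁ ∈ LimitFlats G f, ∀ f₂ ∈ LimitFlats G f, Pool.Agent.Y34.HB.Near f₁ f₂ →
      infDist (f₁ 0) (range f₂) ≤ M0 := by
    intro f₁ h1 f₂ h2 hn
    obtain ⟨e, he⟩ := hpar X hX k f₁ f₂ (hLi _ h1) (hLi _ h2) hn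
    exact hM0 _ _ _ _ (hLi _ h1) (hLi _ h2) e.isometry he
  by_cases hbr : ∃ f₁ ∈ LimitFlats G f, ∃ f₂ ∈ LimitFlats G f, ∃ a : E k, ‖a‖ = 1 ∧
      Pool.Agent.Y34.HB.NearHalf f₁ f₂ a ∧ ¬ Pool.Agent.Y34.HB.Near f₁ f₂
  · left
    obtain ⟨f₁, h1, f₂, h2, a, ha, hn, hnn⟩ := hbr
    obtain ⟨φ, h3, h4, h5, h6⟩ := Pool.Agent.Y34.HB.shape hX (hLi _ h1) (hLi _ h2) ha hn hnn
    exact ⟨f₁, h1, f₂, h2, hLi _ h1, hLi _ h2, a, φ, ha, h3, h4, h5, h6⟩
  · right
    push Not at hbr
    have hiso := Pool.Agent.Y363.HB.t hconst Pool.Agent.Y34.HB.t_lim X G hG k _ hL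
      (fun f₁ h1 f₂ h2 a ha hn => hbr f₁ h1 f₂ h2 a ha hn) M0 hM0'
    have hcoc := Pool.Agent.Y34.HB.t_coc X G hG k _ hL (hiso 2)
    refine ⟨hiso, fun f₁ h1 => ?_, ?_⟩
    · obtain ⟨r, hr⟩ := hcoc f₁ h1
      refine ⟨max r M0, fun z => ?_⟩
      obtain ⟨g, hg1, hg2⟩ := hr z
      refine ⟨g, hg2.trans (le_max_left _ _), fun w => ?_⟩
      have hgf : (fun z => g • f₁ z) ∈ LimitFlats G f := hL.smul _ h1 g
      have h2 := hM0' _ hgf _ h1 hg1
      have h3 := hconst X hX k _ f₁ (hLi _ hgf) (hLi _ h1) hg1 w 0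
      exact (h3.le.trans h2).trans (le_max_right _ _)
    · obtain ⟨r, hr⟩ := hcoc f hfL
      obtain ⟨φ, b, hφ, hb, hφb⟩ := Pool.Agent.Y34.HB.closing hhom Pool.Agent.Y809.HB.mini
        Pool.Agent.Y220.HB.t hG k M0 hM0 f hf r hr
      exact ⟨φ, hφ, b, M0, hb, hφb⟩

/-- Let `G` act geometrically (by isometries, properly discontinuously, cocompactly) on a proper
CAT(0) space `X`.  There is a maximal dimension `k` of flats of `X`, and for every flat `f` of
dimension `k` there are two limit flats of `f` which branch along a half-space, or the limit flats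
of `f` are isolated, every limit flat of `f` is periodic up to bounded distance, and `G` has a
subgroup `ℤ ^ k` which acts on `f`, up to bounded distance, as a lattice of translations.  (If `X`
contains a flat plane then `2 ≤ k`.) -/
theorem result {X : Type*} [MetricSpace X] [ProperSpace X] [Nonempty X] (hX : BruhatTits X)
    {G : Type*} [Group G] [MulAction G X] [IsIsometricSMul G X] [ProperlyDiscontinuousSMul G X]
    (hcc : ∃ K : Set X, IsCompact K ∧ ∀ x : X, ∃ g : G, g • x ∈ K) :
    ∃ k : ℕ, (∀ (m : ℕ) (f : E m → X), Isometry f → m ≤ k) ∧ (∃ f : E k → X, Isometry f) ∧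
      ∀ f : E k → X, Isometry f →
        (∃ f₁ ∈ LimitFlats G f, ∃ f₂ ∈ LimitFlats G f, Isometry f₁ ∧ Isometry f₂ ∧
          Branch f₁ f₂) ∨
        ((∀ M : ℝ, ∃ R : ℝ, ∀ f₁ ∈ LimitFlats G f, ∀ f₂ ∈ LimitFlats G f,
            (∀ z, ‖z‖ ≤ R → infDist (f₁ z) (range f₂) ≤ M) →
            ∃ B : ℝ, ∀ z, infDist (f₁ z) (range f₂) ≤ B) ∧
          (∀ f₁ ∈ LimitFlats G f, ∃ r : ℝ, ∀ z, ∃ g : G, dist (g • f₁ 0) (f₁ z) ≤ r ∧
            ∀ w, infDist (g • f₁ w) (range f₁) ≤ r) ∧
          ∃ φ : Multiplicative (Fin k → ℤ) →* G, Function.Injective φ ∧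
            ∃ (b : Fin k → E k) (r : ℝ), LinearIndependent ℝ b ∧
              ∀ (n : Fin k → ℤ) (z : E k),
                dist (φ (Multiplicative.ofAdd n) • f z) (f (z + ∑ i, n i • b i)) ≤ r) := by
  classical
  obtain ⟨⟨N, hN⟩, hd⟩ := dichotomy hX hcc
  have h0 : ∃ f : E 0 → X, Isometry f := by
    obtain ⟨x⟩ := ‹Nonempty X›
    refine ⟨fun _ => x, Isometry.of_dist_eq fun z w => ?_⟩
    rw [dist_self, Subsingleton.elim z w, dist_self]
  set k := Nat.findGreatest (fun k => ∃ f : E k → X, Isometry f) N with hk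
  have hle : ∀ (m : ℕ) (f : E m → X), Isometry f → m ≤ k := fun m f hf =>
    Nat.le_findGreatest (P := fun k => ∃ f : E k → X, Isometry f) (hN m f hf) ⟨f, hf⟩
  have hkf : ∃ f : E k → X, Isometry f :=
    Nat.findGreatest_spec (P := fun k => ∃ f : E k → X, Isometry f) (Nat.zero_le N) h0
  exact ⟨k, hle, hkf, hd k fun f hf => absurd (hle _ f hf) (by omega)⟩

end Pool.Agent.Results.MP_140312_al.HalfSpaceBranching
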