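import Pool.Agent.Y34.HB.Wide
import Pool.Agent.Y34.HB.WideT
import Pool.Agent.Y901.HB.Inv
import Pool.Agent.Y454.HB.Grow
import Pool.Agent.Y929.HB.Cent
import Pool.Agent.TH60.FP.Cen
import Pool.Agent.TH60.FP.Sel
import Pool.Agent.TH60.FP.Bnd
import Pool.Agent.TH60.FP.Close

/-!
# A flat strip which is wide compared with its period forces `ℤ²`

Let `G` act geometrically on a proper CAT(0) space `X`.  There is a constant `A` such that for every
element `g` which translates a flat strip `S` of width `W` by `τ > 0` along the strip and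
`W > A exp (A τ)`, the group `G` contains `ℤ²` and `g` translates flat strips of every width by `τ`.

Idea of the proof.  Suppose that the centraliser `C` of `g` moves one axis (hence every axis) by a
bounded amount.  Midpoints of parallel axes give an axis `c` of `g` which `C` moves as little as
desired.  The strip contains an axis `c'` of `g` at distance `W / 3` or more from `c`; the strip
between `c` and `c'` is a strip of translation of `g`.  The orbits of `G` grow at most
exponentially, so the conjugates of `g` based at points of the strip repeat and give an element of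
`C` which moves a line of the strip to a line close to a distant one, while it moves `c` by almost
nothing: contradiction.  So the lines `h • c`, `h` in `C`, are at unbounded distance from each other
and span invariant strips of every width; a limit is a plane on which a conjugate of `g` acts as a
translation, and the closing theorem for such planes gives `ℤ²`.
-/

set_option autoImplicit false

namespace Pool.Agent.Results.MP_140312_al.WideStrips

open Set Metric Filter

/-- The inequality of Bruhat and Tits: a complete metric space is CAT(0) if and only if any two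
points `p`, `q` have a midpoint `m` such that
`d(x, m)² ≤ (d(x, p)² + d(x, q)²) / 2 - d(p, q)² / 4` for all `x`. -/
def BruhatTits (X : Type*) [MetricSpace X] : Prop := ∀ p q : X, ∃ m : X, ∀ x : X,
  dist x m ^ 2 ≤ (dist x p ^ 2 + dist x q ^ 2) / 2 - dist p q ^ 2 / 4

/-- `S` embeds the Euclidean strip `ℝ × [0, W]` isometrically in `X` -/
def FlatStrip {X : Type*} [MetricSpace X] (S : ℝ → ℝ → X) (W : ℝ) : Prop :=
  ∀ t s t' s' : ℝ, 0 ≤ s → s ≤ W → 0 ≤ s' → s' ≤ W →
    dist (S t s) (S t' s') ^ 2 = (t - t') ^ 2 + (s - s') ^ 2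

/-- `g` acts on the flat strip `S` of width `W` as the translation by `τ` along the strip -/
def Translates {X : Type*} {G : Type*} [MetricSpace X] [Group G] [MulAction G X] (g : G) (τ : ℝ)
    (S : ℝ → ℝ → X) (W : ℝ) : Prop :=
  ∀ t s : ℝ, 0 ≤ s → s ≤ W → g • S t s = S (t + τ) s

/-- Let `G` act geometrically on a proper CAT(0) space.  There is `A > 0` such that, if `g` acts on
a flat strip of width `W > A exp (A τ)` as a translation by `τ > 0` along the strip, then `G`
contains a subgroup isomorphic to `ℤ²` and `g` acts in this way on flat strips of every width. -/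
theorem result {X : Type*} [MetricSpace X] [ProperSpace X] (hX : BruhatTits X)
    {G : Type*} [Group G] [MulAction G X] [IsIsometricSMul G X] [ProperlyDiscontinuousSMul G X]
    (hcc : ∃ K : Set X, IsCompact K ∧ ∀ x : X, ∃ g : G, g • x ∈ K) :
    ∃ A : ℝ, 0 < A ∧ ∀ (g : G) (τ W : ℝ) (S : ℝ → ℝ → X), 0 < τ → FlatStrip S W →
      Translates g τ S W → A * Real.exp (A * τ) < W →
      (∃ φ : Multiplicative (ℤ × ℤ) →* G, Function.Injective φ) ∧
      ∀ W' : ℝ, ∃ S' : ℝ → ℝ → X, FlatStrip S' W' ∧ Translates g τ S' W' := by
  have hG : Pool.Agent.Y34.HB.Geo X G := ⟨inferInstance, inferInstance, inferInstance, hcc, hX⟩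
  obtain ⟨A, hA, h⟩ := Pool.Agent.Y34.HB.wide Pool.Agent.Y901.HB.t Pool.Agent.Y454.HB.t
    (Pool.Agent.Y929.HB.Cent.t Pool.Agent.Y901.HB.t) hG
  refine ⟨A, hA, fun g τ W S hτ hS hg hW => ?_⟩
  have h1 := h g τ W S hτ hS hg hW
  refine ⟨?_, fun W' => ?_⟩
  · have hdd := Pool.Agent.TH60.FP.t_dd Pool.Agent.TH60.FP.t_strip
      (Pool.Agent.TH60.FP.t_trans Pool.Agent.TH60.FP.t_strip)
      (Pool.Agent.TH60.FP.t_mid Pool.Agent.TH60.FP.t_strip)
    have hcl := Pool.Agent.TH60.FP.t_close hdd Pool.Agent.TH60.FP.t_cen Pool.Agent.TH60.FP.t_sel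
      (Pool.Agent.TH60.FP.t_bnd hdd Pool.Agent.TH60.FP.t_cen Pool.Agent.TH60.FP.t_park)
    exact Pool.Agent.Y34.HB.WideT.t hcl X G hG τ hτ fun n => by
      obtain ⟨S', h2, h3⟩ := h1 n
      exact ⟨g, S', h2, h3⟩
  · obtain ⟨n, hn⟩ := exists_nat_ge W'
    obtain ⟨S', h2, h3⟩ := h1 n
    exact ⟨S', fun t s t' s' a b c d => h2 t s t' s' a (b.trans hn) c (d.trans hn),
      fun t s a b => h3 t s a (b.trans hn)⟩

end Pool.Agent.Results.MP_140312_al.WideStrips
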